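import Pool.Agent.Q179.NH.Surface

/-!
# MP_96a9b8_gt: an HNH-surface whose non-separation sets contain copies of the long ray and of `ω₁`

Manifolds (`IsManifoldNH`), homogeneity (`IsHomogeneous`), the sets `NonSep z` and the well-ordered
set `W` of type `ω₁` are defined in `Pool.Agent.Q179.NH.Defs`.
-/

open Set Topology

namespace Pool.Agent.Results.MP_96a9b8_gt.LongRayInNH

open Pool.Agent.Q179.NH

/-- The long ray: the order topology of the lexicographic product `ω₁ × [0,1)`. -/
@[reducible] noncomputable def longRayTop : TopologicalSpace (W ×ₗ Set.Ico (0 : ℝ) 1) :=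
  Preorder.topology _

/-- The order topology of `ω₁`. -/
@[reducible] noncomputable def omegaOneTop : TopologicalSpace W := Preorder.topology _

/-- The subset `A` of `M` contains a copy of the space `(X, tX)`. -/
def ContainsCopy {X M : Type} (tX : TopologicalSpace X) [TopologicalSpace M] (A : Set M) : Prop :=
  ∃ f : X → M, (∀ x, f x ∈ A) ∧ @IsEmbedding X M tX _ f

/-- **Answer to Q1 and Q2** (positive).  There is a homogeneous non-Hausdorff 2-manifold `M` such
that for every `z` the set `NonSep z` contains a copy of the long ray and a copy of `ω₁`. -/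
theorem result : ∃ (M : Type) (_ : TopologicalSpace M),
    IsManifoldNH 2 M ∧ ¬ T2Space M ∧ IsHomogeneous M ∧
      ∀ z : M, ContainsCopy longRayTop (NonSep z) ∧ ContainsCopy omegaOneTop (NonSep z) := by
  obtain ⟨M, topM, hconn, hch, hhom, f, hf⟩ :=
    exists_homogeneous (EuclideanSpace ℝ (Fin 2)) Sf charted_Sf
  obtain ⟨j, hj⟩ := exists_long_emb
  obtain ⟨o, ho⟩ := exists_omega_emb
  have hcopy : ∀ z : M, ∃ F : LongRay → M, (∀ y, F y ∈ NonSep z) ∧ IsEmbedding F := by
    intro z
    obtain ⟨h, hz⟩ := hhom (f xx) z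
    refine ⟨fun y => h (f (io (j y))), ?_,
      h.isEmbedding.comp (hf.isEmbedding.comp (io_embedding.comp hj))⟩
    intro y
    obtain ⟨h1, h2⟩ := io_nonSep (j y)
    refine ⟨?_, ?_⟩
    · intro h3
      rw [← hz] at h3
      exact h1 (hf.injective (h.injective h3))
    · intro U V hU hV hyU hzV
      have hc : Continuous fun x : Sf => h (f x) := h.continuous.comp hf.continuous
      obtain ⟨w, hw1, hw2⟩ := h2 _ _ (hU.preimage hc) (hV.preimage hc) hyU
        (show h (f xx) ∈ V by rw [hz]; exact hzV)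
      exact ⟨h (f w), hw1, hw2⟩
  refine ⟨M, topM, ⟨hconn, ?_⟩, ?_, hhom, fun z => ⟨hcopy z, ?_⟩⟩
  · intro x
    obtain ⟨g, hg, hx⟩ := hch x
    exact ⟨range g, hg.isOpen_range, hx, ⟨hg.isEmbedding.toHomeomorph.symm⟩⟩
  · intro hT
    obtain ⟨F, hF, -⟩ := hcopy (f xx)
    obtain ⟨h1, h2⟩ := hF (z0 : LongRay)
    obtain ⟨U, V, hU, hV, h3, h4, h5⟩ := t2_separation h1
    obtain ⟨w, hw1, hw2⟩ := h2 U V hU hV h3 h4
    exact Set.disjoint_left.1 h5 hw1 hw2
  · obtain ⟨F, hF1, hF2⟩ := hcopy z
    have h9 : IsEmbedding (F ∘ o) := hF2.comp ho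
    exact ⟨F ∘ o, fun x => hF1 (o x), h9⟩

end Pool.Agent.Results.MP_96a9b8_gt.LongRayInNH
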